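import Pool.Agent.H518R3.RD.Defs

/-! ROOM GEN block 5, task GLUE (helper539). -/

set_option autoImplicit false

open scoped ComplexOrder InnerProductSpace Topology
open Filter

noncomputable section

namespace Pool.Agent.H518R3.RD.T_GLUE

open H759R2.Kad H710R2.DP Pool.Agent.H518R3.RD

variable {H : Type} [NormedAddCommGroup H] [InnerProductSpace ℂ H] [CompleteSpace H]

theorem pr_norm (p : H →L[ℂ] H) (hp : IsPr p) : ‖p‖ ≤ 1 := by
  have h1 : ‖p‖ * ‖p‖ = ‖p‖ := by
    conv_rhs => rw [← hp.2]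
    conv_rhs => rw [← hp.1]
    conv_lhs => rw [← hp.1]
    have := CStarRing.norm_star_mul_self (x := p)
    rw [hp.1] at this ⊢
    exact this.symm
  by_contra h
  push Not at h
  have h2 : ‖p‖ ≠ 0 := by linarith
  have h3 : ‖p‖ = 1 := mul_left_cancel₀ h2 (by rw [h1, mul_one])
  linarith

/-- the sum of `4⁻ⁿ a n` for contractions `a n` -/
theorem sum_ex (a : ℕ → (H →L[ℂ] H)) (ha : ∀ n, ‖a n‖ ≤ 1) :
    ∃ A : H →L[ℂ] H, HasSum (fun i => ((1 / 4 : ℂ) ^ i) • a i) A := by
  have h1 : Summable fun i => ((1 / 4 : ℂ) ^ i) • a i := by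
    refine Summable.of_norm_bounded (g := fun i : ℕ => (1 / 4 : ℝ) ^ i)
      (summable_geometric_of_lt_one (by norm_num) (by norm_num)) ?_
    intro i
    rw [norm_smul, norm_pow]
    have h2 : ‖(1 / 4 : ℂ)‖ = 1 / 4 := by norm_num
    rw [h2]
    calc (1 / 4 : ℝ) ^ i * ‖a i‖ ≤ (1 / 4 : ℝ) ^ i * 1 :=
          mul_le_mul_of_nonneg_left (ha i) (by positivity)
      _ = (1 / 4 : ℝ) ^ i := mul_one _
  exact ⟨_, h1.hasSum⟩

theorem star_sum (a : ℕ → (H →L[ℂ] H)) (A : H →L[ℂ] H) (hs : ∀ n, star (a n) = a n)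
    (hA : HasSum (fun i => ((1 / 4 : ℂ) ^ i) • a i) A) : star A = A := by
  have h1 : HasSum (fun i => star (((1 / 4 : ℂ) ^ i) • a i)) (star A) := hA.star
  have h2 : (fun i => star (((1 / 4 : ℂ) ^ i) • a i)) = fun i => ((1 / 4 : ℂ) ^ i) • a i := by
    funext i
    rw [star_smul, hs i]
    congr 1
    rw [star_pow]
    congr 1
    rw [Complex.star_def, map_div₀, map_one, map_ofNat]
  rw [h2] at h1
  exact h1.unique hA

theorem comm_sum (a : ℕ → (H →L[ℂ] H)) (A s : H →L[ℂ] H)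
    (hA : HasSum (fun i => ((1 / 4 : ℂ) ^ i) • a i) A) (hs : ∀ n, s * a n = a n * s) :
    s * A = A * s := by
  have h1 : HasSum (fun i => s * (((1 / 4 : ℂ) ^ i) • a i)) (s * A) := hA.mul_left s
  have h2 : HasSum (fun i => (((1 / 4 : ℂ) ^ i) • a i) * s) (A * s) := hA.mul_right s
  have h3 : (fun i => s * (((1 / 4 : ℂ) ^ i) • a i)) =
      fun i => (((1 / 4 : ℂ) ^ i) • a i) * s := by
    funext i
    rw [mul_smul_comm, hs i, smul_mul_assoc]
  rw [h3] at h1
  exact h1.unique h2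

theorem mem_iff (M : VonNeumannAlgebra H) (x : H →L[ℂ] H) :
    x ∈ M ↔ ∀ s ∈ Set.centralizer (M : Set (H →L[ℂ] H)), s * x = x * s := by
  have h := M.centralizer_centralizer
  constructor
  · intro hx s hs
    exact ((Set.mem_centralizer_iff.1 hs) x hx).symm
  · intro hx
    have : x ∈ Set.centralizer (Set.centralizer (M : Set (H →L[ℂ] H))) :=
      Set.mem_centralizer_iff.2 hx
    rw [h] at this
    exact this

theorem smul_memM (M : VonNeumannAlgebra H) (c : ℂ) (x : H →L[ℂ] H) (hx : x ∈ M) :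
    c • x ∈ M := by
  rw [mem_iff] at hx ⊢
  intro s hs
  rw [mul_smul_comm, smul_mul_assoc, hx s hs]

theorem proj_sum (g a : ℕ → (H →L[ℂ] H)) (A : H →L[ℂ] H) (hg : ∀ m n, m ≠ n → g m * g n = 0)
    (hga : ∀ n, g n * a n = a n) (hA : HasSum (fun i => ((1 / 4 : ℂ) ^ i) • a i) A) (n : ℕ) :
    g n * A = ((1 / 4 : ℂ) ^ n) • a n := by
  have h1 : HasSum (fun i => g n * (((1 / 4 : ℂ) ^ i) • a i)) (g n * A) := hA.mul_left (g n)
  have h2 : HasSum (fun i => g n * (((1 / 4 : ℂ) ^ i) • a i)) (((1 / 4 : ℂ) ^ n) • a n) := by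
    have h3 : (((1 / 4 : ℂ) ^ n) • a n) = g n * (((1 / 4 : ℂ) ^ n) • a n) := by
      rw [mul_smul_comm, hga n]
    rw [h3]
    refine hasSum_single n fun i hi => ?_
    rw [mul_smul_comm, ← hga i, ← mul_assoc, hg n i (Ne.symm hi), zero_mul, smul_zero]
  exact h1.unique h2

theorem scal (A : H →L[ℂ] H) : ∃ c : ℂ, c ≠ 0 ∧ star c = c ∧ ‖c • A‖ ≤ 1 := by
  have h0 : (0 : ℝ) < 1 + ‖A‖ := by positivity
  refine ⟨(((1 + ‖A‖)⁻¹ : ℝ) : ℂ), ?_, ?_, ?_⟩
  · exact_mod_cast (inv_pos.2 h0).ne'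
  · exact Complex.conj_ofReal _
  · rw [norm_smul, Complex.norm_real, Real.norm_of_nonneg (inv_pos.2 h0).le,
      inv_mul_le_iff₀ h0]
    linarith

theorem comm_of_smul (c : ℂ) (hc : c ≠ 0) (s A : H →L[ℂ] H) (h : s * (c • A) = (c • A) * s) :
    s * A = A * s := by
  rw [mul_smul_comm, smul_mul_assoc] at h
  exact smul_right_injective _ hc h

theorem r_GLUE (hSPB : R_SPB) : R_GLUE := by
  intro H _ _ _ M g hg hort hy
  choose A B hAM hBM hAs hBs hgA hgB hgen using fun n => (hg n).2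
  have hP : ∀ n, IsPr (g n) := fun n => (hg n).1.1
  have hC : ∀ n, IsCen M (g n) := fun n => (hg n).1.2
  choose c hc0 hcs hcn using fun n => scal (A n)
  choose d hd0 hds hdn using fun n => scal (B n)
  -- the blocks
  let a : ℕ → (H →L[ℂ] H) := fun n => (3 / 4 : ℂ) • g n + (1 / 4 : ℂ) • (c n • A n)
  let b : ℕ → (H →L[ℂ] H) := fun n => d n • B n
  have h34 : ‖(3 / 4 : ℂ)‖ = 3 / 4 := by norm_num
  have h14 : ‖(1 / 4 : ℂ)‖ = 1 / 4 := by norm_num
  have s34 : star (3 / 4 : ℂ) = 3 / 4 := by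
    rw [Complex.star_def, map_div₀, map_ofNat, map_ofNat]
  have s14 : star (1 / 4 : ℂ) = 1 / 4 := by
    rw [Complex.star_def, map_div₀, map_one, map_ofNat]
  have ha1 : ∀ n, star (a n) = a n := by
    intro n
    show star ((3 / 4 : ℂ) • g n + (1 / 4 : ℂ) • (c n • A n)) = _
    rw [star_add, star_smul, star_smul, star_smul, (hP n).1, hAs n, hcs n, s34, s14]
  have ha2 : ∀ n, g n * a n = a n := by
    intro n
    show g n * ((3 / 4 : ℂ) • g n + (1 / 4 : ℂ) • (c n • A n)) = _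
    rw [mul_add, mul_smul_comm, mul_smul_comm, mul_smul_comm, (hP n).2, hgA n]
  have ha3 : ∀ n, ‖a n‖ ≤ 1 := by
    intro n
    refine (norm_add_le _ _).trans ?_
    rw [norm_smul, norm_smul, h34, h14]
    have h1 := pr_norm (g n) (hP n)
    have h2 := hcn n
    linarith
  have ha4 : ∀ n, ∀ ξ : H, g n ξ = ξ → 1 / 2 * ‖ξ‖ ≤ ‖a n ξ‖ := by
    intro n ξ hξ
    have h1 : a n ξ = (3 / 4 : ℂ) • ξ + (1 / 4 : ℂ) • ((c n • A n) ξ) := by
      show ((3 / 4 : ℂ) • g n + (1 / 4 : ℂ) • (c n • A n)) ξ = _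
      rw [ContinuousLinearMap.add_apply, ContinuousLinearMap.smul_apply,
        ContinuousLinearMap.smul_apply, hξ]
    have h2 : ‖(3 / 4 : ℂ) • ξ‖ ≤ ‖a n ξ‖ + ‖(1 / 4 : ℂ) • ((c n • A n) ξ)‖ := by
      have h3 : (3 / 4 : ℂ) • ξ = a n ξ - (1 / 4 : ℂ) • ((c n • A n) ξ) := by
        rw [h1]
        abel
      rw [h3]
      exact norm_sub_le _ _
    rw [norm_smul, norm_smul, h34, h14] at h2
    have h4 : ‖(c n • A n) ξ‖ ≤ 1 * ‖ξ‖ := ContinuousLinearMap.le_of_opNorm_le _ (hcn n) ξ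
    linarith
  have hb1 : ∀ n, star (b n) = b n := by
    intro n
    show star (d n • B n) = _
    rw [star_smul, hBs n, hds n]
  have hb2 : ∀ n, g n * b n = b n := by
    intro n
    show g n * (d n • B n) = _
    rw [mul_smul_comm, hgB n]
  obtain ⟨AA, hAA⟩ := sum_ex a ha3
  obtain ⟨BB, hBB⟩ := sum_ex b hdn
  have sAA : star AA = AA := star_sum a AA ha1 hAA
  have sBB : star BB = BB := star_sum b BB hb1 hBB
  let T : H →L[ℂ] H := AA + Complex.I • BB
  have hTs : star T = AA - Complex.I • BB := by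
    show star (AA + Complex.I • BB) = _
    rw [star_add, star_smul, sAA, sBB, Complex.star_def, Complex.conj_I, neg_smul,
      sub_eq_add_neg]
  have eA : AA = (1 / 2 : ℂ) • (T + star T) := by
    rw [hTs]
    show AA = (1 / 2 : ℂ) • (AA + Complex.I • BB + (AA - Complex.I • BB))
    have : AA + Complex.I • BB + (AA - Complex.I • BB) = (2 : ℂ) • AA := by
      rw [two_smul]
      abel
    rw [this, smul_smul]
    norm_num
  have eB : Complex.I • BB = T - AA := by
    show Complex.I • BB = AA + Complex.I • BB - AA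
    abel
  -- membership
  have memM : ∀ x : ℕ → (H →L[ℂ] H), (∀ n, x n ∈ M) → ∀ X : H →L[ℂ] H,
      HasSum (fun i => ((1 / 4 : ℂ) ^ i) • x i) X → X ∈ M := by
    intro x hx X hX
    rw [mem_iff]
    intro s hs
    exact comm_sum x X s hX fun n => (mem_iff M (x n)).1 (hx n) s hs
  have haM : ∀ n, a n ∈ M := fun n =>
    add_mem (smul_memM M _ _ (hC n).1) (smul_memM M _ _ (smul_memM M _ _ (hAM n)))
  have hbM : ∀ n, b n ∈ M := fun n => smul_memM M _ _ (hBM n)
  have hAAM : AA ∈ M := memM a haM AA hAA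
  have hBBM : BB ∈ M := memM b hbM BB hBB
  have hTM : T ∈ M := add_mem hAAM (smul_memM M _ _ hBBM)
  have hTsM : star T ∈ M := star_mem hTM
  -- the commutant of T, T* commutes with M
  have key : ∀ s ∈ Set.centralizer ({T, star T} : Set (H →L[ℂ] H)), ∀ x ∈ M, s * x = x * s := by
    intro s hs x hx
    rw [Set.mem_centralizer_iff] at hs
    have h1 : T * s = s * T := hs T (Set.mem_insert _ _)
    have h2 : star T * s = s * star T := hs (star T) (Set.mem_insert_of_mem _ rfl)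
    have h3 : s * AA = AA * s := by
      rw [eA, mul_smul_comm, smul_mul_assoc, mul_add, add_mul, h1, h2]
    have h4 : s * BB = BB * s := by
      refine comm_of_smul Complex.I Complex.I_ne_zero s BB ?_
      rw [eB, mul_sub, sub_mul, h1, h3]
    have h5 : ∀ i, s * g i = g i * s ∧ s * a i = a i * s :=
      hSPB H g a AA hP hort (fun i => ⟨ha1 i, ha2 i, ha3 i⟩) ha4 hAA s h3
    have h6 : ∀ n, s * A n = A n * s := by
      intro n
      have h7 : (1 / 4 : ℂ) • (c n • A n) = a n - (3 / 4 : ℂ) • g n := by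
        show (1 / 4 : ℂ) • (c n • A n) =
          (3 / 4 : ℂ) • g n + (1 / 4 : ℂ) • (c n • A n) - (3 / 4 : ℂ) • g n
        abel
      refine comm_of_smul (c n) (hc0 n) s (A n) ?_
      refine comm_of_smul (1 / 4 : ℂ) (by norm_num) s _ ?_
      rw [h7, mul_sub, sub_mul, (h5 n).2, mul_smul_comm, smul_mul_assoc, (h5 n).1]
    have h8 : ∀ n, s * B n = B n * s := by
      intro n
      have h9 := proj_sum g b BB hort hb2 hBB n
      refine comm_of_smul (d n) (hd0 n) s (B n) ?_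
      refine comm_of_smul ((1 / 4 : ℂ) ^ n) (by positivity) s _ ?_
      show s * (((1 / 4 : ℂ) ^ n) • b n) = (((1 / 4 : ℂ) ^ n) • b n) * s
      rw [← h9, ← mul_assoc, (h5 n).1, mul_assoc, h4, mul_assoc]
    have h10 : ∀ n, (s * x - x * s) * g n = 0 := by
      intro n
      have h11 : g n * x ∈ cc ({A n, B n, g n} : Set (H →L[ℂ] H)) := hgen n x hx
      have h12 : s ∈ Set.centralizer ({A n, B n, g n} : Set (H →L[ℂ] H)) := by
        rw [Set.mem_centralizer_iff]
        intro y hy'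
        rcases hy' with rfl | rfl | rfl
        · exact (h6 n).symm
        · exact (h8 n).symm
        · exact ((h5 n).1).symm
      have h13 : s * (g n * x) = (g n * x) * s := Set.mem_centralizer_iff.1 h11 s h12
      have h14 : g n * x = x * g n := (hC n).2 x hx
      rw [sub_mul, mul_assoc s x, ← h14, h13, mul_assoc x s, (h5 n).1, ← mul_assoc, ← h14,
        sub_self]
    exact sub_eq_zero.1 (hy _ h10)
  refine ⟨T, ?_⟩
  ext x
  constructor
  · intro hx
    rw [Set.mem_centralizer_iff]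
    intro s hs
    exact key s hs x hx
  · intro hx
    show x ∈ M
    rw [mem_iff]
    intro s hs
    refine Set.mem_centralizer_iff.1 hx s ?_
    rw [Set.mem_centralizer_iff]
    intro y hy'
    rcases hy' with rfl | rfl
    · exact Set.mem_centralizer_iff.1 hs _ hTM
    · exact Set.mem_centralizer_iff.1 hs _ hTsM

end Pool.Agent.H518R3.RD.T_GLUE
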